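import Pool.Agent.Q149.RA.Int

/-!
# Project RA (helper32): commutative groups, finite powers, virtually cyclic groups (helper149)
-/

set_option autoImplicit false

universe u v

namespace Q149.RA

open Q32.RA

/-- commutative groups -/
theorem com : S_COM.{u} := by
  intro hinj hsur hext hdir hint hfin G _
  classical
  refine hdir G fun S => ⟨Subgroup.closure (S : Set G), fun x hx => Subgroup.subset_closure hx, ?_⟩
  induction S using Finset.induction_on with
  | empty =>
    have : Finite (Subgroup.closure ((∅ : Finset G) : Set G)) := by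
      rw [Finset.coe_empty, Subgroup.closure_empty]
      infer_instance
    exact hfin _
  | insert a S _ ih =>
    set K := Subgroup.closure (S : Set G) with hK
    have haK : a ∈ Subgroup.closure ((insert a S : Finset G) : Set G) :=
      Subgroup.subset_closure (by simp)
    have hle : K ≤ Subgroup.closure ((insert a S : Finset G) : Set G) :=
      Subgroup.closure_mono (by rw [Finset.coe_insert]; exact Set.subset_insert _ _)
    -- the product
    have hprod : Amen (K × Multiplicative ℤ) := by
      refine hext (K × Multiplicative ℤ) (Multiplicative ℤ) (MonoidHom.snd K (Multiplicative ℤ))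
        (fun n => ⟨(1, n), rfl⟩) ?_ hint
      refine hinj _ K ((MonoidHom.fst K (Multiplicative ℤ)).comp
        (MonoidHom.snd K (Multiplicative ℤ)).ker.subtype) ?_ ih
      rintro ⟨⟨k, n⟩, hn⟩ ⟨⟨k', n'⟩, hn'⟩ h
      have h1 : k = k' := h
      have h2 : n = 1 := hn
      have h3 : n' = 1 := hn'
      subst h1
      subst h2
      subst h3
      rfl
    let g : K × Multiplicative ℤ →* Subgroup.closure ((insert a S : Finset G) : Set G) :=
      { toFun := fun p => ⟨(p.1 : G) * a ^ (Multiplicative.toAdd p.2),
          Subgroup.mul_mem _ (hle p.1.2) (Subgroup.zpow_mem _ haK _)⟩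
        map_one' := by
          apply Subtype.ext
          simp
        map_mul' := by
          intro p q
          apply Subtype.ext
          show ((p.1 * q.1 : K) : G) * a ^ (Multiplicative.toAdd (p.2 * q.2)) =
            (p.1 : G) * a ^ (Multiplicative.toAdd p.2) * ((q.1 : G) * a ^ (Multiplicative.toAdd q.2))
          rw [toAdd_mul, zpow_add, Subgroup.coe_mul]
          exact mul_mul_mul_comm _ _ _ _ }
    refine hsur _ _ g ?_ hprod
    rintro ⟨x, hx⟩
    have hx' : x ∈ K ⊔ Subgroup.zpowers a := by
      rw [Finset.coe_insert, Set.insert_eq, Set.union_comm, Subgroup.closure_union] at hx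
      rwa [Subgroup.zpowers_eq_closure]
    obtain ⟨k, hk, y, hy, rfl⟩ := Subgroup.mem_sup.mp hx'
    obtain ⟨n, rfl⟩ := Subgroup.mem_zpowers_iff.mp hy
    exact ⟨(⟨k, hk⟩, Multiplicative.ofAdd n), rfl⟩

/-- finite powers -/
theorem pi : S_PI.{u} := by
  intro hinj hext hfin ι D _ _ hD
  classical
  refine Finite.induction_empty_option (P := fun ι : Type u => Amen (ι → D)) ?_ ?_ ?_ ι
  · intro α β e h
    refine hinj (β → D) (α → D) ⟨⟨fun x => x ∘ e, rfl⟩, fun _ _ => rfl⟩ ?_ h
    intro x y hxy
    funext b
    have := congrFun hxy (e.symm b)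
    simpa using this
  · exact hfin _
  · intro α _ h
    refine hext (Option α → D) (α → D) ⟨⟨fun x => x ∘ some, rfl⟩, fun _ _ => rfl⟩ ?_ h
    refine hinj _ D ⟨⟨fun x => x.1 none, rfl⟩, fun _ _ => rfl⟩ ?_ hD
    rintro ⟨x, hx⟩ ⟨y, hy⟩ hxy
    apply Subtype.ext
    funext b
    cases b with
    | none => exact hxy
    | some b =>
      have h1 := congrFun (show x ∘ some = 1 from hx) b
      have h2 := congrFun (show y ∘ some = 1 from hy) b
      exact h1.trans h2.symm

/-- virtually cyclic groups -/
theorem vc : S_VC.{u} := by
  intro hext hfin hcom H _ hH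
  obtain ⟨C, hC, hcyc⟩ := hH
  have hNf : C.normalCore.FiniteIndex := inferInstance
  have hN : C.normalCore.Normal := inferInstance
  refine hext H (H ⧸ C.normalCore) (QuotientGroup.mk' C.normalCore) ?_ (hfin _)
  have hker : (QuotientGroup.mk' C.normalCore).ker = C.normalCore := QuotientGroup.ker_mk' _
  have hcomm : ∀ x y : (QuotientGroup.mk' C.normalCore).ker, x * y = y * x := by
    rintro ⟨x, hx⟩ ⟨y, hy⟩
    rw [hker] at hx hy
    have hx' := Subgroup.normalCore_le C hx
    have hy' := Subgroup.normalCore_le C hy
    apply Subtype.ext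
    show x * y = y * x
    have hcc : ∀ a b : C, a * b = b * a := by
      have := hcyc
      letI := IsCyclic.commGroup (α := C)
      intro a b
      exact mul_comm a b
    have := hcc ⟨x, hx'⟩ ⟨y, hy'⟩
    exact congrArg Subtype.val this
  letI : CommGroup (QuotientGroup.mk' C.normalCore).ker :=
    { (inferInstance : Group (QuotientGroup.mk' C.normalCore).ker) with mul_comm := hcomm }
  exact hcom _

end Q149.RA
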