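import Pool.Agent.Q32.RA.Stm

/-!
# Project RA (helper32): jobs FEP and EPV (helper149)
-/

set_option autoImplicit false

universe u v

namespace Q149.RA

open Q32.RA

section
variable {Z : Type u} {D : Type v} [Group D]

/-- the permutation of the lines -/
def pp (σ : EP Z D) (z : Z) : Z := (σ.1 (z, 1)).1

/-- the cocycle -/
def ee (σ : EP Z D) (z : Z) : D := (σ.1 (z, 1)).2

theorem ep_apply (σ : EP Z D) (z : Z) (d : D) : σ.1 (z, d) = (pp σ z, ee σ z * d) := by
  have h := σ.2 z 1 d
  rwa [one_mul] at h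

theorem pe_mul (σ τ : EP Z D) (z : Z) :
    (pp (σ * τ) z, ee (σ * τ) z) = (pp σ (pp τ z), ee σ (pp τ z) * ee τ z) := by
  have h : (σ * τ).1 (z, 1) = σ.1 (τ.1 (z, 1)) := rfl
  have h2 : (pp (σ * τ) z, ee (σ * τ) z) = (σ * τ).1 (z, 1) := rfl
  rw [h2, h]
  have h3 : τ.1 (z, 1) = (pp τ z, ee τ z) := rfl
  rw [h3, ep_apply]

theorem pp_mul (σ τ : EP Z D) (z : Z) : pp (σ * τ) z = pp σ (pp τ z) :=
  (Prod.ext_iff.mp (pe_mul σ τ z)).1

theorem ee_mul (σ τ : EP Z D) (z : Z) : ee (σ * τ) z = ee σ (pp τ z) * ee τ z :=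
  (Prod.ext_iff.mp (pe_mul σ τ z)).2

theorem pp_one (z : Z) : pp (1 : EP Z D) z = z := rfl

theorem ee_one (z : Z) : ee (1 : EP Z D) z = 1 := rfl

theorem ep_ext {σ τ : EP Z D} (h1 : ∀ z, pp σ z = pp τ z) (h2 : ∀ z, ee σ z = ee τ z) :
    σ = τ := by
  apply Subtype.ext
  apply Equiv.ext
  rintro ⟨z, d⟩
  rw [ep_apply, ep_apply, h1, h2]

/-- the action on the lines modulo `C` -/
@[instance_reducible] def actC (C : Subgroup D) : MulAction (EP Z D) (Z × (D ⧸ C)) where
  smul σ q := (pp σ q.1, ee σ q.1 • q.2)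
  one_smul q := by
    show (pp (1 : EP Z D) q.1, ee (1 : EP Z D) q.1 • q.2) = q
    rw [pp_one, ee_one, one_smul]
  mul_smul σ τ q := by
    show (pp (σ * τ) q.1, ee (σ * τ) q.1 • q.2) =
      (pp σ (pp τ q.1), ee σ (pp τ q.1) • (ee τ q.1 • q.2))
    rw [pp_mul, ee_mul, mul_smul]

/-- the corresponding homomorphism -/
def homC (C : Subgroup D) : EP Z D →* Equiv.Perm (Z × (D ⧸ C)) :=
  letI := actC (Z := Z) C
  MulAction.toPermHom (EP Z D) (Z × (D ⧸ C))

theorem homC_apply (C : Subgroup D) (σ : EP Z D) (z : Z) (q : D ⧸ C) :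
    homC C σ (z, q) = (pp σ z, ee σ z • q) := rfl

/-- the action on the lines -/
@[instance_reducible] def actP : MulAction (EP Z D) Z where
  smul σ z := pp σ z
  one_smul z := pp_one z
  mul_smul σ τ z := pp_mul σ τ z

/-- the homomorphism to the permutations of the lines -/
def homP : EP Z D →* Equiv.Perm Z :=
  letI := actP (Z := Z) (D := D)
  MulAction.toPermHom (EP Z D) Z

theorem homP_apply (σ : EP Z D) (z : Z) : homP σ z = pp σ z := rfl

theorem homP_ker {σ : EP Z D} (h : σ ∈ (homP (Z := Z) (D := D)).ker) (z : Z) : pp σ z = z := by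
  have h1 : homP σ = 1 := h
  have h2 := DFunLike.congr_fun h1 z
  exact h2

/-- the kernel embeds in the power of `D` -/
def kerE : (homP (Z := Z) (D := D)).ker →* (Z → D) where
  toFun σ := fun z => ee σ.1 z
  map_one' := rfl
  map_mul' σ τ := by
    funext z
    show ee (σ.1 * τ.1) z = ee σ.1 z * ee τ.1 z
    rw [ee_mul, homP_ker τ.2]

theorem kerE_injective : Function.Injective (kerE (Z := Z) (D := D)) := by
  rintro ⟨σ, hσ⟩ ⟨τ, hτ⟩ h
  apply Subtype.ext
  exact ep_ext (fun z => by rw [homP_ker hσ, homP_ker hτ]) (fun z => congrFun h z)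

end

/-- the wreath product with a finite set -/
theorem ep_amen
    (hinj : ∀ (G H : Type u) [Group G] [Group H] (f : G →* H), Function.Injective f →
      Amen H → Amen G)
    (hext : ∀ (G H : Type u) [Group G] [Group H] (f : G →* H), Amen f.ker → Amen H → Amen G)
    (hfin : S_FIN.{u})
    (hpi : ∀ (ι D : Type u) [Group D] [Finite ι], Amen D → Amen (ι → D))
    (F D : Type u) [Group D] [Finite F] (hD : Amen D) : Amen (EP F D) :=
  hext (EP F D) (Equiv.Perm F) homP (hinj _ (F → D) kerE kerE_injective (hpi F D hD)) (hfin _)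

section
variable {Z : Type u} {D : Type v} [Group D]

/-- the elements with support in `T` -/
def KT (T : Set Z) : Subgroup (FEP Z D) where
  carrier := {σ | ∀ z, z ∉ T → ∀ d, σ.1 (z, d) = (z, d)}
  mul_mem' := by
    intro a b ha hb z hz d
    show a.1 (b.1 (z, d)) = (z, d)
    rw [hb z hz, ha z hz]
  one_mem' := fun z _ d => rfl
  inv_mem' := by
    intro a ha z hz d
    show a.1⁻¹ (z, d) = (z, d)
    rw [Equiv.Perm.inv_eq_iff_eq, ha z hz]

theorem KT_mem {T : Set Z} (σ : KT (D := D) T) (z : Z) (hz : z ∈ T) (d : D) :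
    (σ.1.1 (z, d)).1 ∈ T := by
  by_contra hne
  have h1 := σ.2 (σ.1.1 (z, d)).1 hne (σ.1.1 (z, d)).2
  have h2 : σ.1.1 ((σ.1.1 (z, d)).1, (σ.1.1 (z, d)).2) = σ.1.1 (z, d) := by
    rw [h1]
  have h3 := σ.1.1.injective h2
  have h4 : (σ.1.1 (z, d)).1 = z := congrArg Prod.fst h3
  rw [h4] at hne
  exact hne hz

/-- the action on the lines over `T` -/
@[instance_reducible] def actT (T : Set Z) : MulAction (KT (D := D) T) (T × D) where
  smul σ q := (⟨(σ.1.1 (q.1.1, q.2)).1, KT_mem σ _ q.1.2 _⟩, (σ.1.1 (q.1.1, q.2)).2)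
  one_smul _ := rfl
  mul_smul _ _ _ := rfl

/-- restriction to the lines over `T` -/
def resT (T : Set Z) : KT (D := D) T →* EP T D :=
  letI := actT (D := D) T
  (MulAction.toPermHom (KT (D := D) T) (T × D)).codRestrict (EP T D) (by
    intro σ z d e
    have h := σ.1.2.1 z.1 d e
    refine Prod.ext (Subtype.ext ?_) ?_
    · show (σ.1.1 (z.1, d * e)).1 = (σ.1.1 (z.1, d)).1
      rw [h]
    · show (σ.1.1 (z.1, d * e)).2 = (σ.1.1 (z.1, d)).2 * e
      rw [h])

theorem resT_apply (T : Set Z) (σ : KT (D := D) T) (z : T) (d : D) :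
    (resT T σ).1 (z, d) = (⟨(σ.1.1 (z.1, d)).1, KT_mem σ _ z.2 _⟩, (σ.1.1 (z.1, d)).2) := rfl

theorem resT_injective (T : Set Z) : Function.Injective (resT (D := D) T) := by
  intro σ τ h
  apply Subtype.ext
  apply Subtype.ext
  apply Equiv.ext
  rintro ⟨z, d⟩
  by_cases hz : z ∈ T
  · have h1 : (resT T σ).1 (⟨z, hz⟩, d) = (resT T τ).1 (⟨z, hz⟩, d) := by rw [h]
    rw [resT_apply, resT_apply] at h1
    refine Prod.ext ?_ ?_
    · exact congrArg (fun q => q.1.1) h1
    · exact congrArg (fun q => q.2) h1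
  · rw [σ.2 z hz d, τ.2 z hz d]

end

/-- **job FEP** -/
theorem fep : S_FEP.{u} := by
  intro hinj hext hdir hfin hpi
  have h1 : ∀ (F D : Type u) [Group D] [Finite F], Amen D → Amen (EP F D) :=
    fun F D _ _ hD => ep_amen hinj hext hfin hpi F D hD
  refine ⟨h1, ?_⟩
  intro Z D _ hD
  refine hdir (FEP Z D) fun S => ?_
  let T : Set Z := ⋃ σ ∈ S, {z | ∃ d, σ.1 (z, d) ≠ (z, d)}
  have hT : T.Finite := by
    refine Set.Finite.biUnion (Finset.finite_toSet S) fun σ _ => ?_
    exact σ.2.2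
  have : Finite T := hT
  refine ⟨KT T, ?_, ?_⟩
  · intro σ hσ z hz d
    by_contra hne
    exact hz (Set.mem_biUnion (t := fun σ : FEP Z D => {z | ∃ d, σ.1 (z, d) ≠ (z, d)}) hσ ⟨d, hne⟩)
  · exact hinj _ (EP T D) (resT T) (resT_injective T) (h1 T D hD)

/-! ### job EPV -/

theorem fg_of_fi {H : Type u} [Group H] (C : Subgroup H) [C.FiniteIndex] (hC : C.FG) :
    Group.FG H := by
  rw [Group.fg_def]
  have h : (⊤ : Subgroup H) = C ⊔ Subgroup.closure (Set.range (Quotient.out : H ⧸ C → H)) := by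
    symm
    rw [eq_top_iff]
    intro x _
    have hx : ((QuotientGroup.mk x : H ⧸ C).out)⁻¹ * x ∈ C := by
      rw [← QuotientGroup.eq, QuotientGroup.out_eq']
    have e : x = (QuotientGroup.mk x : H ⧸ C).out * (((QuotientGroup.mk x : H ⧸ C).out)⁻¹ * x) := by
      group
    rw [e]
    refine Subgroup.mul_mem _ ?_ ?_
    · exact (le_sup_right : _ ≤ C ⊔ _) (Subgroup.subset_closure ⟨_, rfl⟩)
    · exact (le_sup_left : C ≤ _) hx
  rw [h]
  refine hC.sup ?_
  have hfc : Finite (Quotient (QuotientGroup.leftRel C)) := (inferInstance : Finite (H ⧸ C))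
  have hf : (Set.range (Quotient.out : H ⧸ C → H)).Finite := Set.finite_range _
  exact (Group.fg_iff_subgroup_fg _).mp (by
    have : Finite (Set.range (Quotient.out : H ⧸ C → H)) := hf
    infer_instance)

/-- the inverse of `kerE` -/
def thE {F H : Type u} [Group H] : (F → H) →* EP F H where
  toFun c := ⟨{ toFun := fun q => (q.1, c q.1 * q.2)
                invFun := fun q => (q.1, (c q.1)⁻¹ * q.2)
                left_inv := fun q => by
                  show (q.1, (c q.1)⁻¹ * (c q.1 * q.2)) = q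
                  rw [inv_mul_cancel_left]
                right_inv := fun q => by
                  show (q.1, c q.1 * ((c q.1)⁻¹ * q.2)) = q
                  rw [mul_inv_cancel_left] }, fun z d e => by
                  show (z, c z * (d * e)) = (z, c z * d * e)
                  rw [mul_assoc]⟩
  map_one' := by
    apply Subtype.ext
    apply Equiv.ext
    rintro ⟨z, d⟩
    show (z, (1 : F → H) z * d) = (z, d)
    rw [Pi.one_apply, one_mul]
  map_mul' a b := by
    apply Subtype.ext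
    apply Equiv.ext
    rintro ⟨z, d⟩
    show (z, (a * b) z * d) = (z, a z * (b z * d))
    rw [Pi.mul_apply, mul_assoc]

theorem fi_ker {G Q : Type u} [Group G] [Group Q] [Finite Q] (f : G →* Q) : f.ker.FiniteIndex :=
  inferInstance

/-- **job EPV** -/
theorem epv : S_EPV.{u} := by
  intro F H _ _ hH
  obtain ⟨C, hC, hcyc⟩ := hH
  constructor
  · -- finitely generated
    have hCfg : C.FG := by
      obtain ⟨g, hg⟩ := hcyc.exists_generator
      rw [← Group.fg_iff_subgroup_fg, Group.fg_iff]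
      refine ⟨{g}, ?_, Set.finite_singleton g⟩
      rw [eq_top_iff, ← Subgroup.zpowers_eq_closure]
      exact fun x _ => hg x
    have hHfg : Group.FG H := fg_of_fi C hCfg
    have hle : (homP (Z := F) (D := H)).ker ≤ (thE (F := F) (H := H)).range := by
      intro σ hσ
      refine ⟨fun z => ee σ z, ?_⟩
      apply Subtype.ext
      apply Equiv.ext
      rintro ⟨z, d⟩
      rw [ep_apply σ, homP_ker hσ]
      rfl
    have h1 : (homP (Z := F) (D := H)).ker.FiniteIndex := fi_ker _
    have h2 : (thE (F := F) (H := H)).range.FiniteIndex := Subgroup.finiteIndex_of_le hle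
    refine fg_of_fi (thE (F := F) (H := H)).range ?_
    rw [← Group.fg_iff_subgroup_fg]
    infer_instance
  · -- virtually abelian
    have hfq : Finite (H ⧸ C) := inferInstance
    refine ⟨(homC (Z := F) C).ker, fi_ker _, ?_⟩
    have key : ∀ σ ∈ (homC (Z := F) C).ker, ∀ z, pp σ z = z ∧ ee σ z ∈ C := by
      intro σ hσ z
      have h1 : homC C σ = 1 := hσ
      have h2 := DFunLike.congr_fun h1 (z, (QuotientGroup.mk (1 : H) : H ⧸ C))
      rw [homC_apply] at h2
      have h3 : (pp σ z, ee σ z • (QuotientGroup.mk (1 : H) : H ⧸ C)) =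
          (z, (QuotientGroup.mk (1 : H) : H ⧸ C)) := h2
      have h4 := congrArg Prod.fst h3
      have h5 := congrArg Prod.snd h3
      refine ⟨h4, ?_⟩
      have h6 : (QuotientGroup.mk (ee σ z * 1) : H ⧸ C) = QuotientGroup.mk (1 : H) := h5
      rw [mul_one] at h6
      have h7 := QuotientGroup.eq.mp h6.symm
      simpa using h7
    have hcc : ∀ a ∈ C, ∀ b ∈ C, a * b = b * a := by
      intro a ha b hb
      have := hcyc
      let _ := IsCyclic.commGroup (α := C)
      have h := mul_comm (⟨a, ha⟩ : C) ⟨b, hb⟩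
      exact congrArg Subtype.val h
    intro σ hσ τ hτ
    refine ep_ext (fun z => ?_) (fun z => ?_)
    · rw [pp_mul, pp_mul, (key σ hσ z).1, (key τ hτ z).1, (key σ hσ z).1]
    · rw [ee_mul, ee_mul, (key σ hσ z).1, (key τ hτ z).1]
      exact hcc _ (key σ hσ z).2 _ (key τ hτ z).2

end Q149.RA
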