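import Pool.Agent.Q149.RA.Mn

/-!
# Project RA (helper32): the integers are amenable; locally amenable groups (helper149)
-/

set_option autoImplicit false

universe u v

namespace Q149.RA

open Q32.RA Filter Topology

/-- limits of bounded functions along ultrafilters -/
theorem exists_ulim {I : Type v} (U : Ultrafilter I) {f : I → ℝ} {C : ℝ} (h : ∀ i, |f i| ≤ C) :
    ∃ l, Tendsto f U (𝓝 l) := by
  have hc : IsCompact (Set.Icc (-C) C) := isCompact_Icc
  have hm : Set.Icc (-C) C ∈ U.map f := by
    rw [Ultrafilter.mem_map]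
    exact Filter.univ_mem' fun i => ⟨(abs_le.mp (h i)).1, (abs_le.mp (h i)).2⟩
  obtain ⟨l, -, hl⟩ := hc.ultrafilter_le_nhds (U.map f) (Filter.le_principal_iff.mpr hm)
  exact ⟨l, hl⟩

/-- the limit along an ultrafilter -/
noncomputable def ul {I : Type v} (U : Ultrafilter I) (f : I → ℝ) : ℝ := limUnder (U : Filter I) f

theorem ul_tendsto {I : Type v} (U : Ultrafilter I) {f : I → ℝ} {C : ℝ} (h : ∀ i, |f i| ≤ C) :
    Tendsto f U (𝓝 (ul U f)) := tendsto_nhds_limUnder (exists_ulim U h)

theorem ul_eq {I : Type v} (U : Ultrafilter I) {f : I → ℝ} {l : ℝ} (h : Tendsto f U (𝓝 l)) :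
    ul U f = l := h.limUnder_eq

theorem int : S_INT := by
  let U : Ultrafilter ℕ := hyperfilter ℕ
  let A : (Multiplicative ℤ → ℝ) → ℕ → ℝ := fun φ n =>
    (∑ k ∈ Finset.range (n + 1), φ (Multiplicative.ofAdd (k : ℤ))) / ((n : ℝ) + 1)
  have hpos : ∀ n : ℕ, (0 : ℝ) < (n : ℝ) + 1 := fun n => by positivity
  have hA : ∀ φ : Multiplicative ℤ → ℝ, ∀ C, (∀ x, |φ x| ≤ C) → ∀ n, |A φ n| ≤ C := by
    intro φ C hC n
    show |(∑ k ∈ Finset.range (n + 1), φ (Multiplicative.ofAdd (k : ℤ))) / ((n : ℝ) + 1)| ≤ C
    rw [abs_div, abs_of_pos (hpos n), div_le_iff₀ (hpos n)]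
    refine (Finset.abs_sum_le_sum_abs _ _).trans ?_
    refine (Finset.sum_le_sum fun k _ => hC _).trans ?_
    rw [Finset.sum_const, Finset.card_range, nsmul_eq_mul]
    push_cast
    rw [mul_comm]
  have hlim : ∀ φ, Bd φ → Tendsto (A φ) U (𝓝 (ul U (A φ))) := by
    rintro φ ⟨C, hC⟩
    exact ul_tendsto U (hA φ C hC)
  refine amen_iff.mpr ⟨fun φ => ul U (A φ), ?_, ?_, ?_, ?_, ?_⟩
  · intro f g hf hg
    refine ul_eq U ?_
    have h1 := (hlim f hf).add (hlim g hg)
    refine h1.congr fun n => ?_
    show _ / _ + _ / _ = _ / _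
    rw [← add_div, ← Finset.sum_add_distrib]
  · intro c f hf
    refine ul_eq U ?_
    have h1 := (hlim f hf).const_mul c
    refine h1.congr fun n => ?_
    show c * (_ / _) = _ / _
    rw [← Finset.mul_sum, mul_div_assoc]
  · intro f hf h0
    refine ge_of_tendsto' (hlim f hf) fun n => ?_
    exact div_nonneg (Finset.sum_nonneg fun k _ => h0 _) (hpos n).le
  · refine ul_eq U ?_
    refine tendsto_const_nhds.congr fun n => ?_
    show 1 = (∑ k ∈ Finset.range (n + 1), (1 : ℝ)) / ((n : ℝ) + 1)
    rw [Finset.sum_const, Finset.card_range, nsmul_eq_mul, mul_one]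
    push_cast
    exact (div_self (hpos n).ne').symm
  · -- invariance under the generator is enough
    have step : ∀ f : Multiplicative ℤ → ℝ, Bd f →
        ul U (A fun x => f (Multiplicative.ofAdd 1 * x)) = ul U (A f) := by
      intro f hf
      refine ul_eq U ?_
      obtain ⟨C, hC⟩ := hf
      have h1 := hlim f ⟨C, hC⟩
      have h2 : Tendsto (fun n : ℕ => (f (Multiplicative.ofAdd ((n + 1 : ℕ) : ℤ)) -
          f (Multiplicative.ofAdd 0)) / ((n : ℝ) + 1)) U (𝓝 0) := by
        have h3 : Tendsto (fun n : ℕ => (2 * C) / ((n : ℝ) + 1)) atTop (𝓝 0) := by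
          have := (tendsto_one_div_add_atTop_nhds_zero_nat (𝕜 := ℝ)).const_mul (2 * C)
          rw [mul_zero] at this
          exact this.congr fun n => by ring
        have hU : (U : Filter ℕ) ≤ atTop := by
          rw [← Nat.cofinite_eq_atTop]
          exact hyperfilter_le_cofinite
        refine squeeze_zero_norm (fun n => ?_) (h3.mono_left hU)
        rw [Real.norm_eq_abs, abs_div, abs_of_pos (hpos n)]
        refine div_le_div_of_nonneg_right ?_ (hpos n).le
        have h4 := hC (Multiplicative.ofAdd ((n + 1 : ℕ) : ℤ))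
        have h5 := hC (Multiplicative.ofAdd 0)
        refine (abs_sub _ _).trans ?_
        linarith
      have h6 := h1.add h2
      rw [add_zero] at h6
      refine h6.congr fun n => ?_
      show _ / _ + _ / _ = (∑ k ∈ Finset.range (n + 1),
        f (Multiplicative.ofAdd 1 * Multiplicative.ofAdd (k : ℤ))) / ((n : ℝ) + 1)
      rw [← add_div]
      congr 1
      have e : ∀ k : ℕ, f (Multiplicative.ofAdd 1 * Multiplicative.ofAdd (k : ℤ)) =
          f (Multiplicative.ofAdd ((k + 1 : ℕ) : ℤ)) := by
        intro k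
        rw [← ofAdd_add]
        push_cast
        rw [add_comm]
      rw [Finset.sum_congr rfl fun k _ => e k]
      have h7 := Finset.sum_range_succ (fun k : ℕ => f (Multiplicative.ofAdd (k : ℤ))) (n + 1)
      have h8 := Finset.sum_range_succ' (fun k : ℕ => f (Multiplicative.ofAdd (k : ℤ))) (n + 1)
      rw [h7] at h8
      simp only [Nat.cast_zero] at h8
      linarith
    have hnat : ∀ (m : ℕ) (f : Multiplicative ℤ → ℝ), Bd f →
        ul U (A fun x => f (Multiplicative.ofAdd (m : ℤ) * x)) = ul U (A f) := by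
      intro m
      induction m with
      | zero =>
        intro f _
        simp
      | succ m ih =>
        intro f hf
        have h1 := ih (fun x => f (Multiplicative.ofAdd 1 * x)) (bd_comp hf _)
        rw [step f hf] at h1
        rw [← h1]
        have e : (fun x => f (Multiplicative.ofAdd ((m + 1 : ℕ) : ℤ) * x)) =
            fun x => f (Multiplicative.ofAdd 1 * (Multiplicative.ofAdd (m : ℤ) * x)) := by
          funext x
          rw [← mul_assoc, ← ofAdd_add]
          push_cast
          rw [add_comm]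
        rw [e]
    intro a f hf
    obtain ⟨m, hm⟩ := Int.eq_nat_or_neg (Multiplicative.toAdd a)
    have ha : a = Multiplicative.ofAdd (Multiplicative.toAdd a) := rfl
    rcases hm with hm | hm
    · rw [hm] at ha
      rw [ha]
      exact hnat m f hf
    · have h1 := hnat m (fun x => f (a * x)) (bd_comp hf _)
      have h2 : (fun x => f (a * (Multiplicative.ofAdd (m : ℤ) * x))) = f := by
        funext x
        rw [← mul_assoc, ha, hm, ← ofAdd_add, neg_add_cancel, ofAdd_zero, one_mul]
      simp only [h2] at h1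
      exact h1.symm

/-- locally amenable groups are amenable -/
theorem dir : S_DIR.{u} := by
  intro G _ h
  choose K hK hA using h
  choose M hM using fun S => amen_iff.mp (hA S)
  let U : Ultrafilter (Finset G) := Ultrafilter.of atTop
  have hU : (U : Filter (Finset G)) ≤ atTop := Ultrafilter.of_le atTop
  let A : (G → ℝ) → Finset G → ℝ := fun φ S => M S (fun x : K S => φ x)
  have hlim : ∀ φ, Bd φ → Tendsto (A φ) U (𝓝 (ul U (A φ))) := by
    rintro φ ⟨C, hC⟩
    exact ul_tendsto U (C := C) fun S => (hM S).abs_le fun x => hC _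
  refine amen_iff.mpr ⟨fun φ => ul U (A φ), ?_, ?_, ?_, ?_, ?_⟩
  · intro f g hf hg
    refine ul_eq U ?_
    refine ((hlim f hf).add (hlim g hg)).congr fun S => ?_
    exact ((hM S).add _ _ (bd_comp hf _) (bd_comp hg _)).symm
  · intro c f hf
    refine ul_eq U ?_
    refine ((hlim f hf).const_mul c).congr fun S => ?_
    exact ((hM S).smul c _ (bd_comp hf _)).symm
  · intro f hf h0
    refine ge_of_tendsto' (hlim f hf) fun S => ?_
    exact (hM S).pos _ (bd_comp hf _) fun x => h0 _
  · refine ul_eq U ?_
    refine tendsto_const_nhds.congr fun S => ?_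
    exact (hM S).one.symm
  · intro a f hf
    refine ul_eq U ?_
    refine (hlim f hf).congr' ?_
    have hev : ∀ᶠ S : Finset G in U, a ∈ S := by
      refine hU ?_
      refine (eventually_ge_atTop ({a} : Finset G)).mono fun S hS => ?_
      exact hS (Finset.mem_singleton_self a)
    refine hev.mono fun S hS => ?_
    exact ((hM S).inv ⟨a, hK S a hS⟩ (fun x : K S => f x) (bd_comp hf _)).symm

end Q149.RA
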