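import Pool.Agent.Q32.RA.Stm

/-!
# Project RA (helper32): means (helper149)
-/

set_option autoImplicit false

universe u v

namespace Q149.RA

open Q32.RA

/-- invariant means -/
structure Mn {G : Type u} [Group G] (M : (G → ℝ) → ℝ) : Prop where
  add : ∀ f g, Bd f → Bd g → M (fun x => f x + g x) = M f + M g
  smul : ∀ (c : ℝ) (f : G → ℝ), Bd f → M (fun x => c * f x) = c * M f
  pos : ∀ f, Bd f → (∀ x, 0 ≤ f x) → 0 ≤ M f
  one : M (fun _ => 1) = 1
  inv : ∀ (a : G) (f : G → ℝ), Bd f → M (fun x => f (a * x)) = M f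

theorem amen_iff {G : Type u} [Group G] : Amen G ↔ ∃ M : (G → ℝ) → ℝ, Mn M :=
  ⟨fun ⟨M, h1, h2, h3, h4, h5⟩ => ⟨M, h1, h2, h3, h4, h5⟩,
    fun ⟨M, h⟩ => ⟨M, h.add, h.smul, h.pos, h.one, h.inv⟩⟩

theorem bd_const {G : Type u} (c : ℝ) : Bd (fun _ : G => c) := ⟨|c|, fun _ => le_rfl⟩

theorem bd_comp {G : Type u} {H : Type v} {f : H → ℝ} (hf : Bd f) (p : G → H) :
    Bd (fun x => f (p x)) := by
  obtain ⟨C, hC⟩ := hf
  exact ⟨C, fun x => hC (p x)⟩

theorem bd_add {G : Type u} {f g : G → ℝ} (hf : Bd f) (hg : Bd g) : Bd (fun x => f x + g x) := by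
  obtain ⟨C, hC⟩ := hf
  obtain ⟨D, hD⟩ := hg
  exact ⟨C + D, fun x => (abs_add_le _ _).trans (add_le_add (hC x) (hD x))⟩

theorem bd_smul {G : Type u} {f : G → ℝ} (c : ℝ) (hf : Bd f) : Bd (fun x => c * f x) := by
  obtain ⟨C, hC⟩ := hf
  exact ⟨|c| * C, fun x => by
    rw [abs_mul]; exact mul_le_mul_of_nonneg_left (hC x) (abs_nonneg _)⟩

theorem Mn.const {G : Type u} [Group G] {M : (G → ℝ) → ℝ} (h : Mn M) (c : ℝ) :
    M (fun _ => c) = c := by
  have h1 := h.smul c (fun _ => 1) (bd_const 1)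
  rw [h.one, mul_one] at h1
  simpa using h1

theorem Mn.abs_le {G : Type u} [Group G] {M : (G → ℝ) → ℝ} (h : Mn M) {f : G → ℝ} {C : ℝ}
    (hf : ∀ x, |f x| ≤ C) : |M f| ≤ C := by
  have hB : Bd f := ⟨C, hf⟩
  rw [_root_.abs_le]
  constructor
  · have h1 := h.pos (fun x => C + f x) (bd_add (bd_const C) hB)
      (fun x => by have := (_root_.abs_le.mp (hf x)).1; linarith)
    rw [h.add _ _ (bd_const C) hB, h.const] at h1
    linarith
  · have h1 := h.pos (fun x => C + (-1) * f x) (bd_add (bd_const C) (bd_smul (-1) hB))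
      (fun x => by have := (_root_.abs_le.mp (hf x)).2; linarith)
    rw [h.add _ _ (bd_const C) (bd_smul (-1) hB), h.const, h.smul _ _ hB] at h1
    linarith

/-- a group that embeds in an amenable group is amenable -/
theorem inj : S_INJ.{u, v} := by
  intro G H _ _ f hf hH
  obtain ⟨M, hM⟩ := amen_iff.mp hH
  let q : H → H := fun h => (Quotient.mk (QuotientGroup.rightRel f.range) h).out
  have hq : ∀ h, ∃ g, h = f g * q h := by
    intro h
    have h1 : (QuotientGroup.rightRel f.range) (q h) h := Quotient.mk_out h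
    rw [QuotientGroup.rightRel_apply] at h1
    obtain ⟨g, hg⟩ := h1
    exact ⟨g, by rw [hg, inv_mul_cancel_right]⟩
  have hq2 : ∀ g h, q (f g * h) = q h := by
    intro g h
    have : Quotient.mk (QuotientGroup.rightRel f.range) (f g * h) =
        Quotient.mk (QuotientGroup.rightRel f.range) h := by
      refine Quotient.sound ?_
      show (QuotientGroup.rightRel f.range) (f g * h) h
      rw [QuotientGroup.rightRel_apply]
      exact ⟨g⁻¹, by rw [map_inv]; group⟩
    show (Quotient.mk (QuotientGroup.rightRel f.range) (f g * h)).out = _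
    rw [this]
  choose p hp using hq
  have hpg : ∀ g h, p (f g * h) = g * p h := by
    intro g h
    apply hf
    have h1 := hp (f g * h)
    rw [hq2] at h1
    have h2 := hp h
    have h3 : f (p (f g * h)) * q h = f g * f (p h) * q h := by
      rw [← h1, mul_assoc, ← h2]
    rw [mul_left_injective _ h3, map_mul]
  refine amen_iff.mpr ⟨fun φ => M (fun h => φ (p h)), ?_, ?_, ?_, ?_, ?_⟩
  · intro a b ha hb
    exact hM.add _ _ (bd_comp ha p) (bd_comp hb p)
  · intro c a ha
    exact hM.smul c _ (bd_comp ha p)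
  · intro a ha h0
    exact hM.pos _ (bd_comp ha p) fun x => h0 _
  · exact hM.one
  · intro a φ hφ
    have h1 := hM.inv (f a) (fun h => φ (p h)) (bd_comp hφ p)
    simp only [hpg] at h1
    exact h1

/-- extensions -/
theorem ext : S_EXT.{u, v} := by
  intro G H _ _ f hf hN hH
  obtain ⟨M, hM⟩ := amen_iff.mp hN
  obtain ⟨M', hM'⟩ := amen_iff.mp hH
  choose s hs using hf
  have key : ∀ (φ : G → ℝ), Bd φ → ∀ g g' : G, f g = f g' →
      M (fun n => φ (g * n)) = M (fun n => φ (g' * n)) := by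
    intro φ hφ g g' h
    have hn : g'⁻¹ * g ∈ f.ker := by
      rw [MonoidHom.mem_ker, map_mul, map_inv, h, inv_mul_cancel]
    have h1 := hM.inv ⟨g'⁻¹ * g, hn⟩ (fun n => φ (g' * n)) (bd_comp hφ _)
    rw [← h1]
    congr 1
    funext n
    congr 1
    show g * (n : G) = g' * (((⟨g'⁻¹ * g, hn⟩ : f.ker) * n : f.ker) : G)
    rw [Subgroup.coe_mul]
    show g * (n : G) = g' * (g'⁻¹ * g * n)
    group
  have hbd : ∀ φ : G → ℝ, Bd φ → Bd (fun h => M (fun n : f.ker => φ (s h * n))) := by
    intro φ hφ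
    obtain ⟨C, hC⟩ := hφ
    exact ⟨C, fun h => hM.abs_le fun n => hC _⟩
  refine amen_iff.mpr ⟨fun φ => M' (fun h => M (fun n => φ (s h * n))), ?_, ?_, ?_, ?_, ?_⟩
  · intro a b ha hb
    have : (fun h => M (fun n : f.ker => a (s h * n) + b (s h * n))) =
        fun h => M (fun n : f.ker => a (s h * n)) + M (fun n : f.ker => b (s h * n)) := by
      funext h
      exact hM.add _ _ (bd_comp ha _) (bd_comp hb _)
    show M' _ = _
    rw [this]
    exact hM'.add _ _ (hbd a ha) (hbd b hb)
  · intro c a ha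
    have : (fun h => M (fun n : f.ker => c * a (s h * n))) =
        fun h => c * M (fun n : f.ker => a (s h * n)) := by
      funext h
      exact hM.smul c _ (bd_comp ha _)
    show M' _ = _
    rw [this]
    exact hM'.smul c _ (hbd a ha)
  · intro a ha h0
    exact hM'.pos _ (hbd a ha) fun h => hM.pos _ (bd_comp ha _) fun n => h0 _
  · show M' (fun h => M (fun n => 1)) = 1
    rw [hM.one, hM'.one]
  · intro a φ hφ
    have : (fun h => M (fun n : f.ker => φ (a * (s h * n)))) =
        fun h => (fun h => M (fun n : f.ker => φ (s h * n))) (f a * h) := by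
      funext h
      have h1 := key φ hφ (a * s h) (s (f a * h)) (by rw [map_mul, hs, hs])
      simp only
      rw [← h1]
      congr 1
      funext n
      rw [mul_assoc]
    show M' _ = _
    rw [this]
    exact hM'.inv (f a) _ (hbd φ hφ)

end Q149.RA
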